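import Mathlib
import Pool.Agent.Helper639.AL

/-!
# Compact spaces with an injective c₀-family are Frechet-Urysohn
-/

set_option autoImplicit false

open Set Topology Filter

namespace Pool.Agent.TH603.Cp

/-- In a compact space with an injective family of continuous functions with countable supports,
every point of the closure of a set is the limit of a sequence in the set. -/
theorem fu {L Γ : Type} [TopologicalSpace L] [CompactSpace L] {h : L → Γ → ℝ}
    (hc : ∀ γ, Continuous (fun x => h x γ)) (hinj : Function.Injective h)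
    (hs : ∀ x, {γ | h x γ ≠ 0}.Countable) (S : Set L) (g : L) (hg : g ∈ closure S) :
    ∃ f : ℕ → L, (∀ k, f k ∈ S) ∧ Tendsto f atTop (𝓝 g) := by
  classical
  have hcont : Continuous h := continuous_pi hc
  have hemb : IsClosedEmbedding h := hcont.isClosedEmbedding hinj
  choose c hcinj using fun x => Set.countable_iff_exists_injOn.1 (hs x)
  let F : L → ℕ → Set Γ := fun x m => {γ | h x γ ≠ 0 ∧ c x γ < m}
  have hF : ∀ x m, (F x m).Finite := by
    intro x m
    apply Set.Finite.of_finite_image (f := c x)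
    · exact (Set.finite_Iio m).subset (by rintro _ ⟨γ, hγ, rfl⟩; exact hγ.2)
    · exact (hcinj x).mono (fun γ hγ => hγ.1)
  have key := exists_seq_of_forall_finset_exists (α := L × ℕ)
    (fun z => z.1 ∈ S ∧ ∀ γ ∈ F g z.2, |h z.1 γ - h g γ| < 1 / ((z.2 : ℝ) + 1))
    (fun z z' => z.2 < z'.2 ∧ ∀ γ ∈ F z.1 z'.2, |h z'.1 γ - h g γ| < 1 / ((z'.2 : ℝ) + 1)) (by
      intro s _
      let m := s.sup (fun z => z.2) + 1
      have hfin : (⋃ z ∈ s, F z.1 m).Finite :=
        s.finite_toSet.biUnion fun z _ => hF z.1 m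
      have hfin2 : (F g m ∪ ⋃ z ∈ s, F z.1 m).Finite := (hF g m).union hfin
      have hpos : (0 : ℝ) < 1 / ((m : ℝ) + 1) := by positivity
      have hopen : IsOpen (⋂ γ ∈ (F g m ∪ ⋃ z ∈ s, F z.1 m),
          {x : L | |h x γ - h g γ| < 1 / ((m : ℝ) + 1)}) := by
        apply hfin2.isOpen_biInter
        intro γ _
        exact isOpen_lt (((hc γ).sub continuous_const).abs) continuous_const
      obtain ⟨x, hx1, hx2⟩ := mem_closure_iff.1 hg _ hopen (by
        simp only [mem_iInter]
        intro γ _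
        simpa using hpos)
      simp only [mem_iInter] at hx1
      refine ⟨(x, m), ⟨hx2, fun γ hγ => hx1 γ (Or.inl hγ)⟩, ?_⟩
      intro z hz
      refine ⟨Nat.lt_succ_of_le (Finset.le_sup (f := fun z : L × ℕ => z.2) hz), fun γ hγ => ?_⟩
      exact hx1 γ (Or.inr (mem_biUnion hz hγ)))
  obtain ⟨f, hf1, hf2⟩ := key
  refine ⟨fun k => (f k).1, fun k => (hf1 k).1, ?_⟩
  rw [hemb.isEmbedding.tendsto_nhds_iff]
  rw [tendsto_pi_nhds]
  intro γ
  have hmono : StrictMono fun k => (f k).2 := by
    apply strictMono_nat_of_lt_succ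
    intro k
    exact (hf2 k (k + 1) (Nat.lt_succ_self k)).1
  have hge : ∀ k, k ≤ (f k).2 := fun k => hmono.id_le k
  have hlim : Tendsto (fun k : ℕ => 1 / ((k : ℝ) + 1)) atTop (𝓝 0) :=
    tendsto_one_div_add_atTop_nhds_zero_nat
  -- if the difference is eventually small we are done
  have hfinish : (∀ᶠ k in atTop, |h (f k).1 γ - h g γ| ≤ 1 / ((k : ℝ) + 1)) →
      Tendsto (fun k => h (f k).1 γ) atTop (𝓝 (h g γ)) := by
    intro h1
    rw [tendsto_iff_norm_sub_tendsto_zero]
    refine squeeze_zero' (Eventually.of_forall fun k => norm_nonneg _) ?_ hlim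
    filter_upwards [h1] with k hk
    simpa [Real.norm_eq_abs] using hk
  have hle : ∀ k, 1 / (((f k).2 : ℝ) + 1) ≤ 1 / ((k : ℝ) + 1) := by
    intro k
    apply one_div_le_one_div_of_le (by positivity)
    have : (k : ℝ) ≤ ((f k).2 : ℝ) := by exact_mod_cast hge k
    linarith
  apply hfinish
  by_cases hγg : h g γ ≠ 0
  · filter_upwards [eventually_gt_atTop (c g γ)] with k hk
    refine le_trans (le_of_lt ((hf1 k).2 γ ⟨hγg, lt_of_lt_of_le hk (hge k)⟩)) (hle k)
  · push Not at hγg
    by_cases hex : ∃ j, h (f j).1 γ ≠ 0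
    · obtain ⟨j, hj⟩ := hex
      filter_upwards [eventually_gt_atTop (max j (c (f j).1 γ))] with k hk
      have hjk : j < k := lt_of_le_of_lt (le_max_left _ _) hk
      have hck : c (f j).1 γ < k := lt_of_le_of_lt (le_max_right _ _) hk
      exact le_trans (le_of_lt ((hf2 j k hjk).2 γ ⟨hj, lt_of_lt_of_le hck (hge k)⟩)) (hle k)
    · push Not at hex
      filter_upwards with k
      rw [hex k, hγg]
      simp
      positivity

end Pool.Agent.TH603.Cp
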