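import Mathlib
import Pool.Agent.TH603.Cp.Fu

/-!
# Countably compact sets of functions over a space with a dense sigma-bounded subspace

Bounded subsets of `X` have compact closure in the product of the lines indexed by `C(X, ℝ)`.
Points of this closure agree with points of `X` on countably many functions, so a countably
compact set of functions on `X` remains countably compact over the larger set of points.
The theorems of Grothendieck and of Amir and Lindenstrauss finish the proof.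
-/

set_option autoImplicit false

open Set Topology Filter

namespace Pool.Agent.TH603.Cp

section

variable {X : Type} [TopologicalSpace X]

/-- evaluation -/
def ev (x : X) : C(X, ℝ) → ℝ := fun f => f x

/-- The closure of a set of points in the space of all functions on `C(X, ℝ)`. -/
def Cl (A : Set X) : Set (C(X, ℝ) → ℝ) := closure (ev '' A)

/-- `A` is bounded in `X`. -/
def Bd (A : Set X) : Prop := ∀ f : X → ℝ, Continuous f → ∃ C : ℝ, ∀ x ∈ A, |f x| ≤ C

theorem isCompact_Cl {A : Set X} (hA : Bd A) : IsCompact (Cl A) := by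
  choose C hC using fun f : C(X, ℝ) => hA f f.continuous
  have h1 : IsCompact (Set.pi univ fun f : C(X, ℝ) => Icc (-(C f)) (C f)) :=
    isCompact_univ_pi fun f => isCompact_Icc
  apply h1.of_isClosed_subset isClosed_closure
  apply closure_minimal _ h1.isClosed
  rintro _ ⟨x, hx, rfl⟩
  intro f _
  have := hC f x hx
  exact abs_le.1 this

/-- Points of the closure of a bounded set agree with points of `X` on countably many
functions. -/
theorem exists_rep {A : Set X} (hA : Bd A) {y : C(X, ℝ) → ℝ} (hy : y ∈ Cl A)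
    (D : ℕ → C(X, ℝ)) : ∃ x : X, ∀ i, D i x = y (D i) := by
  by_contra hcon
  push Not at hcon
  -- the function which measures the distance
  let t : ℕ → X → ℝ := fun i x => min 1 |D i x - y (D i)| * (1 / 2) ^ i
  have ht0 : ∀ i x, 0 ≤ t i x := fun i x => by
    apply mul_nonneg (le_min zero_le_one (abs_nonneg _)) (by positivity)
  have ht1 : ∀ i x, t i x ≤ (1 / 2) ^ i := fun i x => by
    have h1 : min 1 |D i x - y (D i)| ≤ 1 := min_le_left _ _
    have h2 : (0 : ℝ) ≤ (1 / 2) ^ i := by positivity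
    calc t i x ≤ 1 * (1 / 2) ^ i := mul_le_mul_of_nonneg_right h1 h2
      _ = _ := one_mul _
  have hgeo : Summable fun i : ℕ => ((1 : ℝ) / 2) ^ i :=
    summable_geometric_of_lt_one (by norm_num) (by norm_num)
  have hsum : ∀ x, Summable fun i => t i x := fun x =>
    Summable.of_nonneg_of_le (fun i => ht0 i x) (fun i => ht1 i x) hgeo
  have hcont : Continuous fun x => ∑' i, t i x := by
    apply continuous_tsum (u := fun i : ℕ => ((1 : ℝ) / 2) ^ i)
    · intro i
      exact (continuous_const.min (((D i).continuous.sub continuous_const).abs)).mul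
        continuous_const
    · exact hgeo
    · intro i x
      rw [Real.norm_eq_abs, abs_of_nonneg (ht0 i x)]
      exact ht1 i x
  have hpos : ∀ x, 0 < ∑' i, t i x := by
    intro x
    obtain ⟨i, hi⟩ := hcon x
    have h1 : 0 < t i x := by
      apply mul_pos _ (by positivity)
      apply lt_min zero_lt_one
      exact abs_pos.2 (sub_ne_zero.2 hi)
    exact lt_of_lt_of_le h1 ((hsum x).le_tsum i (fun j _ => ht0 j x))
  obtain ⟨C, hC⟩ := hA (fun x => (∑' i, t i x)⁻¹) (hcont.inv₀ fun x => (hpos x).ne')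
  have hC' : ∀ x ∈ A, (∑' i, t i x)⁻¹ ≤ max C 1 := fun x hx =>
    le_trans (le_abs_self _) (le_trans (hC x hx) (le_max_left _ _))
  have hCpos : (0 : ℝ) < max C 1 := lt_of_lt_of_le zero_lt_one (le_max_right _ _)
  have hlow : ∀ x ∈ A, (max C 1)⁻¹ ≤ ∑' i, t i x := by
    intro x hx
    rw [inv_le_comm₀ hCpos (hpos x)]
    exact hC' x hx
  -- a point of `A` at which the function is small
  set δ : ℝ := (max C 1)⁻¹ with hδ
  have hδpos : 0 < δ := inv_pos.2 hCpos
  obtain ⟨N, hN⟩ : ∃ N : ℕ, (∑' i : ℕ, ((1 : ℝ) / 2) ^ (i + N)) < δ / 2 := by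
    have h1 := tendsto_sum_nat_add fun i : ℕ => ((1 : ℝ) / 2) ^ i
    exact (h1.eventually (gt_mem_nhds (half_pos hδpos))).exists
  have hopen : IsOpen {z : C(X, ℝ) → ℝ | ∀ i ∈ Finset.range N, |z (D i) - y (D i)| < δ / 4} := by
    have : {z : C(X, ℝ) → ℝ | ∀ i ∈ Finset.range N, |z (D i) - y (D i)| < δ / 4} =
        ⋂ i ∈ Finset.range N, {z | |z (D i) - y (D i)| < δ / 4} := by
      ext z; simp
    rw [this]
    apply isOpen_biInter_finset
    intro i _
    exact isOpen_lt (((continuous_apply (D i)).sub continuous_const).abs) continuous_const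
  obtain ⟨_, hz1, x, hx, rfl⟩ := mem_closure_iff.1 hy _ hopen (by
    intro i _
    simpa using by positivity)
  have hsplit := (hsum x).sum_add_tsum_nat_add N
  have hA1 : ∑ i ∈ Finset.range N, t i x ≤ ∑ i ∈ Finset.range N, δ / 4 * (1 / 2) ^ i := by
    apply Finset.sum_le_sum
    intro i hi
    apply mul_le_mul_of_nonneg_right _ (by positivity)
    exact le_trans (min_le_right _ _) (hz1 i hi).le
  have hA2 : ∑ i ∈ Finset.range N, δ / 4 * (1 / 2 : ℝ) ^ i ≤ δ / 2 := by
    rw [← Finset.mul_sum]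
    have h2 : ∑ i ∈ Finset.range N, (1 / 2 : ℝ) ^ i ≤ 2 := by
      have := hgeo.sum_le_tsum (Finset.range N) (fun i _ => by positivity)
      rw [tsum_geometric_two] at this
      exact this
    nlinarith
  have hA3 : ∑' i, t (i + N) x ≤ ∑' i : ℕ, ((1 : ℝ) / 2) ^ (i + N) := by
    apply Summable.tsum_le_tsum (fun i => ht1 (i + N) x)
    · exact (summable_nat_add_iff N).2 (hsum x)
    · exact (summable_nat_add_iff N).2 hgeo
  have := hlow x hx
  rw [← hsplit] at this
  linarith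

/-- Countable compactness by covers gives cluster points of sequences, even over the points
of closures of bounded sets. -/
theorem cluster {K : Set (X → ℝ)}
    (hcc : ∀ U : ℕ → Set (X → ℝ), (∀ n, IsOpen (U n)) → K ⊆ ⋃ n, U n →
      ∃ N : ℕ, K ⊆ ⋃ n ∈ Finset.range N, U n)
    (f : ℕ → C(X, ℝ)) (hf : ∀ k, (f k : X → ℝ) ∈ K) :
    ∃ g : X → ℝ, g ∈ K ∧ ∀ n, g ∈ closure {h | ∃ k, n ≤ k ∧ h = (f k : X → ℝ)} := by
  by_contra hcon
  push Not at hcon
  let F : ℕ → Set (X → ℝ) := fun n => closure {h | ∃ k, n ≤ k ∧ h = (f k : X → ℝ)}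
  obtain ⟨N, hN⟩ := hcc (fun n => (F n)ᶜ) (fun n => isClosed_closure.isOpen_compl) (by
    intro g hg
    obtain ⟨n, hn⟩ := hcon g hg
    exact mem_iUnion.2 ⟨n, hn⟩)
  obtain ⟨n, hn⟩ := mem_iUnion.1 (hN (hf N))
  simp only [mem_iUnion, Finset.mem_range] at hn
  obtain ⟨hnN, hn⟩ := hn
  exact hn (subset_closure ⟨N, hnN.le, rfl⟩)

end

section

variable {X : Type} [TopologicalSpace X] {A : ℕ → Set X}

/-- The points at which the functions are evaluated. -/
abbrev Pt (A : ℕ → Set X) : Type := Σ n, Cl (A n)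

/-- The value of a continuous function at a point. -/
def val (f : C(X, ℝ)) : Pt A → ℝ := fun e => e.2.1 f

/-- `g` is a cluster point of the sequence `f`. -/
def CP (A : ℕ → Set X) (f : ℕ → C(X, ℝ)) (g : C(X, ℝ)) : Prop :=
  ∀ (s : Finset (Pt A)) (s' : Finset X) (ε : ℝ), 0 < ε → ∀ n : ℕ, ∃ k, n ≤ k ∧
    (∀ e ∈ s, |val (f k) e - val g e| < ε) ∧ ∀ x ∈ s', |f k x - g x| < ε

theorem exists_CP (hA : ∀ n, Bd (A n)) {K : Set (X → ℝ)} (hK : ∀ f ∈ K, Continuous f)
    (hcc : ∀ U : ℕ → Set (X → ℝ), (∀ n, IsOpen (U n)) → K ⊆ ⋃ n, U n →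
      ∃ N : ℕ, K ⊆ ⋃ n ∈ Finset.range N, U n)
    (f : ℕ → C(X, ℝ)) (hf : ∀ k, (f k : X → ℝ) ∈ K) :
    ∃ g : C(X, ℝ), (g : X → ℝ) ∈ K ∧ CP A f g := by
  classical
  obtain ⟨g, hgK, hg⟩ := cluster hcc f hf
  refine ⟨⟨g, hK g hgK⟩, hgK, ?_⟩
  intro s s' ε hε n
  have hrep : ∀ e : Pt A, ∃ x : X, (∀ k, f k x = val (f k) e) ∧
      g x = val (⟨g, hK g hgK⟩ : C(X, ℝ)) e := by
    intro e
    obtain ⟨x, hx⟩ := exists_rep (hA e.1) e.2.2
      (fun k => Nat.rec (⟨g, hK g hgK⟩ : C(X, ℝ)) (fun j _ => f j) k)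
    exact ⟨x, fun k => hx (k + 1), hx 0⟩
  choose r hr1 hr2 using hrep
  have hopen : IsOpen {h : X → ℝ | ∀ x ∈ s.image r ∪ s', |h x - g x| < ε} := by
    have : {h : X → ℝ | ∀ x ∈ s.image r ∪ s', |h x - g x| < ε} =
        ⋂ x ∈ s.image r ∪ s', {h | |h x - g x| < ε} := by
      ext z; simp
    rw [this]
    apply isOpen_biInter_finset
    intro x _
    exact isOpen_lt (((continuous_apply x).sub continuous_const).abs) continuous_const
  obtain ⟨_, hz1, k, hk, rfl⟩ := mem_closure_iff.1 (hg n) _ hopen (by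
    intro x _
    simpa using hε)
  refine ⟨k, hk, ?_, ?_⟩
  · intro e he
    rw [← hr1 e k, ← hr2 e]
    exact hz1 (r e) (Finset.mem_union_left _ (Finset.mem_image_of_mem _ he))
  · intro x hx
    exact hz1 x (Finset.mem_union_right _ hx)

/-- The functions of `K`, as functions on the space of points. -/
def VK (A : ℕ → Set X) (K : Set (X → ℝ)) : Set (Pt A → ℝ) :=
  {u | ∃ f : C(X, ℝ), (f : X → ℝ) ∈ K ∧ u = val f}

theorem continuous_val (f : C(X, ℝ)) : Continuous (val f : Pt A → ℝ) := by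
  apply continuous_sigma
  intro n
  exact (continuous_apply f).comp continuous_subtype_val

theorem bounded_val (hA : ∀ n, Bd (A n)) {K : Set (X → ℝ)} (hK : ∀ f ∈ K, Continuous f)
    (hcc : ∀ U : ℕ → Set (X → ℝ), (∀ n, IsOpen (U n)) → K ⊆ ⋃ n, U n →
      ∃ N : ℕ, K ⊆ ⋃ n ∈ Finset.range N, U n) (e : Pt A) :
    ∃ C : ℝ, ∀ f : C(X, ℝ), (f : X → ℝ) ∈ K → |val f e| ≤ C := by
  by_contra hcon
  push Not at hcon
  choose f hfK hf using fun k : ℕ => hcon k
  obtain ⟨g, -, hg⟩ := exists_CP hA hK hcc f hfK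
  obtain ⟨n, hn⟩ := exists_nat_gt (|val g e| + 1)
  obtain ⟨k, hk, h1, -⟩ := hg {e} ∅ 1 one_pos n
  have h2 := h1 e (Finset.mem_singleton_self e)
  have h3 := hf k
  have h4 : (n : ℝ) ≤ k := by exact_mod_cast hk
  have h5 : |val (f k) e| ≤ |val (f k) e - val g e| + |val g e| := by
    have := abs_add_le (val (f k) e - val g e) (val g e)
    simpa using this
  linarith

theorem isCompact_closure_VK (hA : ∀ n, Bd (A n)) {K : Set (X → ℝ)}
    (hK : ∀ f ∈ K, Continuous f)
    (hcc : ∀ U : ℕ → Set (X → ℝ), (∀ n, IsOpen (U n)) → K ⊆ ⋃ n, U n →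
      ∃ N : ℕ, K ⊆ ⋃ n ∈ Finset.range N, U n) : IsCompact (closure (VK A K)) := by
  choose C hC using fun e : Pt A => bounded_val hA hK hcc e
  have h1 : IsCompact (Set.pi univ fun e : Pt A => Icc (-(C e)) (C e)) :=
    isCompact_univ_pi fun f => isCompact_Icc
  apply h1.of_isClosed_subset isClosed_closure
  apply closure_minimal _ h1.isClosed
  rintro _ ⟨f, hf, rfl⟩
  intro e _
  exact abs_le.1 (hC e f hf)

/-- Grothendieck's double limit argument. -/
theorem continuous_of_mem_closure (hA : ∀ n, Bd (A n)) {K : Set (X → ℝ)}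
    (hK : ∀ f ∈ K, Continuous f)
    (hcc : ∀ U : ℕ → Set (X → ℝ), (∀ n, IsOpen (U n)) → K ⊆ ⋃ n, U n →
      ∃ N : ℕ, K ⊆ ⋃ n ∈ Finset.range N, U n)
    {g : Pt A → ℝ} (hg : g ∈ closure (VK A K)) : Continuous g := by
  classical
  apply continuous_sigma
  intro n
  rw [continuous_iff_continuousAt]
  intro y0
  by_contra hcon
  -- `g` has oscillation at `y0`
  obtain ⟨ε, hε, hosc⟩ : ∃ ε : ℝ, 0 < ε ∧ ∀ V ∈ 𝓝 y0, ∃ y ∈ V, ε ≤ |g ⟨n, y⟩ - g ⟨n, y0⟩| := by
    by_contra hcon2
    push Not at hcon2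
    apply hcon
    rw [ContinuousAt, Metric.tendsto_nhds]
    intro ε hε
    obtain ⟨V, hV, h⟩ := hcon2 ε hε
    filter_upwards [hV] with y hy
    rw [Real.dist_eq]
    exact h y hy
  -- approximation of `g` at finitely many points
  have happ : ∀ (T : Finset (Pt A)) (δ : ℝ), 0 < δ → ∃ f : C(X, ℝ), (f : X → ℝ) ∈ K ∧
      ∀ e ∈ T, |val f e - g e| < δ := by
    intro T δ hδ
    have hopen : IsOpen {h : Pt A → ℝ | ∀ e ∈ T, |h e - g e| < δ} := by
      have : {h : Pt A → ℝ | ∀ e ∈ T, |h e - g e| < δ} = ⋂ e ∈ T, {h | |h e - g e| < δ} := by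
        ext z; simp
      rw [this]
      apply isOpen_biInter_finset
      intro e _
      exact isOpen_lt (((continuous_apply e).sub continuous_const).abs) continuous_const
    obtain ⟨_, h1, f, hf, rfl⟩ := mem_closure_iff.1 hg _ hopen (by
      intro e _
      simpa using hδ)
    exact ⟨f, hf, h1⟩
  have key := exists_seq_of_forall_finset_exists (α := {f : C(X, ℝ) // (f : X → ℝ) ∈ K} ×
      Cl (A n) × ℕ)
    (fun z => ε ≤ |g ⟨n, z.2.1⟩ - g ⟨n, y0⟩| ∧
      |val z.1.1 (⟨n, y0⟩ : Pt A) - g ⟨n, y0⟩| < 1 / ((z.2.2 : ℝ) + 1))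
    (fun z z' => z.2.2 < z'.2.2 ∧
      |val z'.1.1 (⟨n, z.2.1⟩ : Pt A) - g ⟨n, z.2.1⟩| < 1 / ((z'.2.2 : ℝ) + 1) ∧
      |val z.1.1 (⟨n, z'.2.1⟩ : Pt A) - val z.1.1 (⟨n, y0⟩ : Pt A)| < 1 / ((z'.2.2 : ℝ) + 1)) (by
      intro s _
      let m := s.sup (fun z => z.2.2) + 1
      have hpos : (0 : ℝ) < 1 / ((m : ℝ) + 1) := by positivity
      obtain ⟨f, hfK, hf⟩ := happ (insert (⟨n, y0⟩ : Pt A) (s.image fun z => (⟨n, z.2.1⟩ : Pt A)))
        (1 / ((m : ℝ) + 1)) hpos
      have hV : {y : Cl (A n) | ∀ z ∈ s,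
          |val z.1.1 (⟨n, y⟩ : Pt A) - val z.1.1 (⟨n, y0⟩ : Pt A)| < 1 / ((m : ℝ) + 1)} ∈ 𝓝 y0 := by
        apply IsOpen.mem_nhds
        · have : {y : Cl (A n) | ∀ z ∈ s,
              |val z.1.1 (⟨n, y⟩ : Pt A) - val z.1.1 (⟨n, y0⟩ : Pt A)| < 1 / ((m : ℝ) + 1)} =
              ⋂ z ∈ s, {y : Cl (A n) | |val z.1.1 (⟨n, y⟩ : Pt A) -
                val z.1.1 (⟨n, y0⟩ : Pt A)| < 1 / ((m : ℝ) + 1)} := by
            ext z; simp
          rw [this]
          apply isOpen_biInter_finset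
          intro z _
          refine isOpen_lt ((Continuous.sub ?_ continuous_const).abs) continuous_const
          exact (continuous_val z.1.1).comp continuous_sigmaMk
        · intro z _
          simpa using hpos
      obtain ⟨y, hy, hy2⟩ := hosc _ hV
      refine ⟨(⟨f, hfK⟩, y, m), ⟨hy2, hf _ (Finset.mem_insert_self _ _)⟩, ?_⟩
      intro z hz
      refine ⟨Nat.lt_succ_of_le (Finset.le_sup
        (f := fun z : {f : C(X, ℝ) // (f : X → ℝ) ∈ K} × Cl (A n) × ℕ => z.2.2) hz), ?_, hy z hz⟩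
      exact hf _ (Finset.mem_insert_of_mem (Finset.mem_image_of_mem
        (fun z : {f : C(X, ℝ) // (f : X → ℝ) ∈ K} × Cl (A n) × ℕ => (⟨n, z.2.1⟩ : Pt A)) hz)))
  obtain ⟨z, hz1, hz2⟩ := key
  have hmono : StrictMono fun k => (z k).2.2 := by
    apply strictMono_nat_of_lt_succ
    intro k
    exact (hz2 k (k + 1) (Nat.lt_succ_self k)).1
  have hge : ∀ k, k ≤ (z k).2.2 := fun k => hmono.id_le k
  have hle : ∀ k, 1 / (((z k).2.2 : ℝ) + 1) ≤ 1 / ((k : ℝ) + 1) := by
    intro k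
    apply one_div_le_one_div_of_le (by positivity)
    have : (k : ℝ) ≤ ((z k).2.2 : ℝ) := by exact_mod_cast hge k
    linarith
  have hlim : Tendsto (fun k : ℕ => 1 / ((k : ℝ) + 1)) atTop (𝓝 0) :=
    tendsto_one_div_add_atTop_nhds_zero_nat
  have hsq : ∀ (a : ℕ → ℝ) (b : ℝ), (∀ᶠ k in atTop, |a k - b| ≤ 1 / ((k : ℝ) + 1)) →
      Tendsto a atTop (𝓝 b) := by
    intro a b h1
    rw [tendsto_iff_norm_sub_tendsto_zero]
    refine squeeze_zero' (Eventually.of_forall fun k => norm_nonneg _) ?_ hlim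
    filter_upwards [h1] with k hk
    simpa [Real.norm_eq_abs] using hk
  -- the limits
  have hl1 : Tendsto (fun k => val (z k).1.1 (⟨n, y0⟩ : Pt A)) atTop (𝓝 (g ⟨n, y0⟩)) :=
    hsq _ _ (Eventually.of_forall fun k => ((hz1 k).2.le).trans (hle k))
  have hl2 : ∀ j, Tendsto (fun k => val (z k).1.1 (⟨n, (z j).2.1⟩ : Pt A)) atTop
      (𝓝 (g ⟨n, (z j).2.1⟩)) := fun j =>
    hsq _ _ ((eventually_gt_atTop j).mono fun k hk => ((hz2 j k hk).2.1.le).trans (hle k))
  have hl3 : ∀ j, Tendsto (fun k => val (z j).1.1 (⟨n, (z k).2.1⟩ : Pt A)) atTop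
      (𝓝 (val (z j).1.1 (⟨n, y0⟩ : Pt A))) := fun j =>
    hsq _ _ ((eventually_gt_atTop j).mono fun k hk => ((hz2 j k hk).2.2.le).trans (hle k))
  obtain ⟨f, hfK, hf⟩ := exists_CP hA hK hcc (fun k => (z k).1.1) (fun k => (z k).1.2)
  -- values of the cluster function
  have hval : ∀ (e : Pt A) (b : ℝ), Tendsto (fun k => val (z k).1.1 e) atTop (𝓝 b) →
      val f e = b := by
    intro e b hb
    by_contra hne
    have hd : 0 < |val f e - b| / 2 := half_pos (abs_pos.2 (sub_ne_zero.2 hne))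
    obtain ⟨N, hN⟩ := (Metric.tendsto_atTop.1 hb) _ hd
    obtain ⟨k, hk, h1, -⟩ := hf {e} ∅ _ hd N
    have h2 := h1 e (Finset.mem_singleton_self e)
    have h3 := hN k hk
    rw [Real.dist_eq] at h3
    have h4 : |val f e - b| ≤ |val f e - val (z k).1.1 e| + |val (z k).1.1 e - b| :=
      abs_sub_le _ _ _
    rw [abs_sub_comm (val f e) (val (z k).1.1 e)] at h4
    linarith
  have hf0 : val f (⟨n, y0⟩ : Pt A) = g ⟨n, y0⟩ := hval _ _ hl1
  have hfj : ∀ j, val f (⟨n, (z j).2.1⟩ : Pt A) = g ⟨n, (z j).2.1⟩ := fun j => hval _ _ (hl2 j)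
  -- a cluster point of the points
  have : CompactSpace (Cl (A n)) := isCompact_iff_compactSpace.1 (isCompact_Cl (hA n))
  let 𝒰 : Ultrafilter ℕ := Filter.hyperfilter ℕ
  have h𝒰 : (𝒰 : Filter ℕ) ≤ atTop := by
    rw [← Nat.cofinite_eq_atTop]
    exact Filter.hyperfilter_le_cofinite
  obtain ⟨y, hy⟩ : ∃ y, Tendsto (fun k => (z k).2.1) 𝒰 (𝓝 y) :=
    ⟨_, (Ultrafilter.map (fun k => (z k).2.1) 𝒰).le_nhds_lim⟩
  have hyc : ∀ h : C(X, ℝ), Tendsto (fun k => val h (⟨n, (z k).2.1⟩ : Pt A)) 𝒰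
      (𝓝 (val h (⟨n, y⟩ : Pt A))) := by
    intro h
    have hc : Continuous fun y : Cl (A n) => val h (⟨n, y⟩ : Pt A) :=
      (continuous_val _).comp continuous_sigmaMk
    exact (hc.tendsto y).comp hy
  have hyj : ∀ j, val (z j).1.1 (⟨n, y⟩ : Pt A) = val (z j).1.1 (⟨n, y0⟩ : Pt A) := fun j =>
    tendsto_nhds_unique (hyc (z j).1.1) ((hl3 j).mono_left h𝒰)
  have hfy : ε ≤ |val f (⟨n, y⟩ : Pt A) - val f (⟨n, y0⟩ : Pt A)| := by
    have h1 : Tendsto (fun k => |val f (⟨n, (z k).2.1⟩ : Pt A) - val f (⟨n, y0⟩ : Pt A)|) 𝒰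
        (𝓝 |val f (⟨n, y⟩ : Pt A) - val f (⟨n, y0⟩ : Pt A)|) :=
      ((hyc f).sub tendsto_const_nhds).abs
    refine ge_of_tendsto h1 (Eventually.of_forall fun k => ?_)
    rw [hfj k, hf0]
    exact (hz1 k).1
  obtain ⟨k, -, h1, -⟩ := hf {(⟨n, y⟩ : Pt A), (⟨n, y0⟩ : Pt A)} ∅ (ε / 2) (half_pos hε) 0
  have h2 := h1 (⟨n, y⟩ : Pt A) (by simp)
  have h3 := h1 (⟨n, y0⟩ : Pt A) (by simp)
  simp only [hyj k] at h2
  have h4 : |val f (⟨n, y⟩ : Pt A) - val f (⟨n, y0⟩ : Pt A)| ≤
      |val f (⟨n, y⟩ : Pt A) - val (z k).1.1 (⟨n, y0⟩ : Pt A)| +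
      |val (z k).1.1 (⟨n, y0⟩ : Pt A) - val f (⟨n, y0⟩ : Pt A)| := abs_sub_le _ _ _
  rw [abs_sub_comm (val f (⟨n, y⟩ : Pt A)) (val (z k).1.1 (⟨n, y0⟩ : Pt A))] at h4
  linarith

/-- The pairing of functions and points, made small on the far points. -/
noncomputable def pair (g : Pt A → ℝ) (z : OnePoint (Pt A)) : ℝ :=
  z.elim 0 (fun e => Pool.Agent.Helper639.Ebl.sq (g e) / ((e.1 : ℝ) + 1))

@[simp] theorem pair_infty (g : Pt A → ℝ) : pair g OnePoint.infty = 0 := rfl

@[simp] theorem pair_coe (g : Pt A → ℝ) (e : Pt A) :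
    pair g (e : OnePoint (Pt A)) = Pool.Agent.Helper639.Ebl.sq (g e) / ((e.1 : ℝ) + 1) := rfl

theorem continuous_pair (hA : ∀ n, Bd (A n)) {g : Pt A → ℝ} (hg : Continuous g) :
    Continuous (pair g) := by
  have hfst : Continuous fun e : Pt A => ((e.1 : ℝ) + 1) := by
    apply continuous_sigma
    intro n
    exact (continuous_const : Continuous fun _ : Cl (A n) => ((n : ℝ) + 1))
  have hpos : ∀ e : Pt A, (0 : ℝ) < (e.1 : ℝ) + 1 := fun e => by positivity
  rw [continuous_iff_continuousAt]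
  intro z
  induction z using OnePoint.rec with
  | infty =>
    rw [OnePoint.continuousAt_infty]
    intro s hs
    rw [pair_infty] at hs
    obtain ⟨ε, hε, hball⟩ := Metric.mem_nhds_iff.1 hs
    obtain ⟨N, hN⟩ := exists_nat_gt (1 / ε)
    have hcomp : ∀ n, IsCompact (Sigma.mk n '' (univ : Set (Cl (A n))) : Set (Pt A)) := by
      intro n
      have : CompactSpace (Cl (A n)) := isCompact_iff_compactSpace.1 (isCompact_Cl (hA n))
      exact isCompact_univ.image continuous_sigmaMk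
    refine ⟨⋃ n ∈ Finset.range N, Sigma.mk n '' (univ : Set (Cl (A n))), ?_, ?_, ?_⟩
    · apply Set.Finite.isClosed_biUnion (Finset.finite_toSet _)
      intro n _
      exact (isClosedMap_sigmaMk (σ := fun n => Cl (A n)) (i := n)) _ isClosed_univ
    · exact (Finset.range N).isCompact_biUnion fun n _ => hcomp n
    · intro e he
      apply hball
      have hN2 : N ≤ e.1 := by
        by_contra hlt
        push Not at hlt
        apply he
        simp only [mem_iUnion]
        exact ⟨e.1, Finset.mem_range.2 hlt, e.2, trivial, rfl⟩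
      rw [Function.comp_apply, pair_coe, Metric.mem_ball, dist_zero_right, Real.norm_eq_abs,
        abs_div, abs_of_pos (hpos e), div_lt_iff₀ (hpos e)]
      have h1 : |Pool.Agent.Helper639.Ebl.sq (g e)| ≤ 1 := Pool.Agent.Helper639.Ebl.sq_le_one _
      have h2 : (N : ℝ) ≤ e.1 := by exact_mod_cast hN2
      have h3 : 1 < ε * (e.1 + 1) := by
        rw [div_lt_iff₀ hε] at hN
        nlinarith
      linarith
  | coe e =>
    rw [OnePoint.continuousAt_coe]
    have : Continuous fun e : Pt A => Pool.Agent.Helper639.Ebl.sq (g e) / ((e.1 : ℝ) + 1) :=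
      (Pool.Agent.Helper639.Ebl.sq_continuous.comp hg).div hfst fun e => (hpos e).ne'
    exact this.continuousAt (x := e)

theorem pair_inj {g g' : Pt A → ℝ} (h : ∀ z, pair g z = pair g' z) : g = g' := by
  funext e
  have h1 := h (e : OnePoint (Pt A))
  rw [pair_coe, pair_coe] at h1
  have hpos : (0 : ℝ) < (e.1 : ℝ) + 1 := by positivity
  exact Pool.Agent.Helper639.Ebl.sq_inj ((div_left_inj' hpos.ne').1 h1)

/-- The theorem. -/
theorem main (hA : ∀ n, Bd (A n)) (hd : Dense (⋃ n, A n)) {K : Set (X → ℝ)}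
    (hK : ∀ f ∈ K, Continuous f)
    (hcc : ∀ U : ℕ → Set (X → ℝ), (∀ n, IsOpen (U n)) → K ⊆ ⋃ n, U n →
      ∃ N : ℕ, K ⊆ ⋃ n ∈ Finset.range N, U n) :
    IsCompact K ∧
      ∃ (Γ : Type) (e : K → (Γ → ℝ)), Topology.IsEmbedding e ∧
        ∀ k : K, ∀ ε : ℝ, 0 < ε → {γ : Γ | ε ≤ |e k γ|}.Finite := by
  classical
  let L : Set (Pt A → ℝ) := closure (VK A K)
  have hLc : CompactSpace L := isCompact_iff_compactSpace.1 (isCompact_closure_VK hA hK hcc)
  have hn : ∀ n, CompactSpace (Cl (A n)) := fun n =>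
    isCompact_iff_compactSpace.1 (isCompact_Cl (hA n))
  -- the c₀ family
  obtain ⟨Γ, h, hC0, hinj⟩ := Pool.Agent.Helper639.Ebl.al (K := L) (F := OnePoint (Pt A))
    (fun g z => pair g.1 z)
    (by
      intro z
      induction z using OnePoint.rec with
      | infty => exact continuous_const
      | coe e =>
        have h1 : Continuous fun g : L => g.1 e :=
          (continuous_apply e).comp continuous_subtype_val
        exact (Pool.Agent.Helper639.Ebl.sq_continuous.comp h1).div_const _)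
    (fun g => continuous_pair hA (continuous_of_mem_closure hA hK hcc g.2))
    (fun g g' hgg => Subtype.ext (pair_inj hgg))
  have hfu := fun S g hg => fu (L := L) hC0.cont hinj
    (fun x => Pool.Agent.Helper639.Ebl.supp_countable (hC0.fin x)) S g hg
  -- continuous functions are determined by their values at the points
  have hval_inj : ∀ f f' : C(X, ℝ), (val f : Pt A → ℝ) = val f' → f = f' := by
    intro f f' hff
    apply DFunLike.coe_injective
    apply f.continuous.ext_on hd f'.continuous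
    intro x hx
    obtain ⟨n, hx⟩ := mem_iUnion.1 hx
    exact congrFun hff ⟨n, ⟨ev x, subset_closure ⟨x, hx, rfl⟩⟩⟩
  let ρ : K → L := fun k => ⟨val ⟨k.1, hK k.1 k.2⟩, subset_closure ⟨⟨k.1, hK k.1 k.2⟩, k.2, rfl⟩⟩
  have hρinj : Function.Injective ρ := by
    intro k k' hkk
    have h1 := hval_inj _ _ (congrArg Subtype.val hkk)
    exact Subtype.ext (congrArg (fun f : C(X, ℝ) => (f : X → ℝ)) h1)
  -- cluster points
  have hcl : ∀ (u : ℕ → K) (g : L), Tendsto (fun k => ρ (u k)) atTop (𝓝 g) →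
      ∃ f : K, ρ f = g ∧ ∀ C : Set K, IsClosed C → (∀ k, u k ∈ C) → f ∈ C := by
    intro u g hu
    obtain ⟨f, hfK, hf⟩ := exists_CP hA hK hcc (fun k => ⟨(u k).1, hK _ (u k).2⟩)
      (fun k => (u k).2)
    refine ⟨⟨f, hfK⟩, ?_, ?_⟩
    · apply Subtype.ext
      funext e
      change val f e = g.1 e
      have hue : Tendsto (fun k => (ρ (u k)).1 e) atTop (𝓝 (g.1 e)) :=
        ((continuous_apply e).comp continuous_subtype_val).continuousAt.tendsto.comp hu
      by_contra hne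
      have hdpos : 0 < |val f e - g.1 e| / 2 := half_pos (abs_pos.2 (sub_ne_zero.2 hne))
      obtain ⟨N, hN⟩ := (Metric.tendsto_atTop.1 hue) _ hdpos
      obtain ⟨k, hk, h1, -⟩ := hf {e} ∅ _ hdpos N
      have h2 := h1 e (Finset.mem_singleton_self e)
      have h3 := hN k hk
      rw [Real.dist_eq] at h3
      have h4 : |val f e - g.1 e| ≤ |val f e - (ρ (u k)).1 e| + |(ρ (u k)).1 e - g.1 e| :=
        abs_sub_le _ _ _
      rw [abs_sub_comm (val f e) ((ρ (u k)).1 e)] at h4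
      change |(ρ (u k)).1 e - val f e| < _ at h2
      linarith
    · intro C hC huC
      obtain ⟨D, hD, rfl⟩ := isClosed_induced_iff.1 hC
      change (f : X → ℝ) ∈ D
      have hclos : (f : X → ℝ) ∈ closure D := by
        rw [mem_closure_iff]
        intro o ho hfo
        obtain ⟨I, w, hw, hIo⟩ := isOpen_pi_iff.1 ho _ hfo
        have h1 : ∀ᶠ ε : ℝ in 𝓝[>] 0, ∀ x ∈ I, Metric.ball (f x) ε ⊆ w x := by
          rw [Finset.eventually_all]
          intro x hx
          obtain ⟨δ, hδ, hb⟩ := Metric.isOpen_iff.1 (hw x hx).1 _ (hw x hx).2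
          have : ∀ᶠ ε : ℝ in 𝓝[>] 0, ε < δ := nhdsWithin_le_nhds (gt_mem_nhds hδ)
          filter_upwards [this] with ε hε
          exact (Metric.ball_subset_ball hε.le).trans hb
        obtain ⟨ε, hε, hεpos⟩ := (h1.and self_mem_nhdsWithin).exists
        obtain ⟨k, -, -, h2⟩ := hf ∅ I ε hεpos 0
        refine ⟨(u k).1, hIo ?_, huC k⟩
        intro x hx
        exact hε x hx (by rw [Metric.mem_ball, Real.dist_eq]; exact h2 x hx)
      exact hD.closure_eq ▸ hclos
  have hclosed : ∀ C : Set K, IsClosed C → IsClosed (ρ '' C) := by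
    intro C hC
    rw [← closure_subset_iff_isClosed]
    intro g hg
    obtain ⟨v, hv, hvg⟩ := hfu _ _ hg
    choose u huC hu using hv
    obtain ⟨f, hfg, hf⟩ := hcl u g (by simpa [hu] using hvg)
    exact ⟨f, hf C hC huC, hfg⟩
  have hρsurj : Function.Surjective ρ := by
    intro g
    have h1 : IsClosed (Subtype.val '' (ρ '' univ) : Set (Pt A → ℝ)) :=
      (isClosed_closure (s := VK A K)).isClosedEmbedding_subtypeVal.isClosedMap _
        (hclosed _ isClosed_univ)
    have h2 : closure (VK A K) ⊆ Subtype.val '' (ρ '' univ) := by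
      apply closure_minimal _ h1
      rintro _ ⟨f, hf, rfl⟩
      exact ⟨ρ ⟨f, hf⟩, ⟨_, trivial, rfl⟩, rfl⟩
    obtain ⟨_, ⟨k, -, rfl⟩, hk⟩ := h2 g.2
    exact ⟨k, Subtype.ext hk⟩
  let σ : L ≃ K := (Equiv.ofBijective ρ ⟨hρinj, hρsurj⟩).symm
  have hσ : Continuous σ := by
    rw [continuous_iff_isClosed]
    intro C hC
    have : σ ⁻¹' C = ρ '' C := by
      ext g
      constructor
      · intro hg
        exact ⟨σ g, hg, (Equiv.ofBijective ρ ⟨hρinj, hρsurj⟩).apply_symm_apply g⟩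
      · rintro ⟨k, hk, rfl⟩
        have : σ (ρ k) = k := (Equiv.ofBijective ρ ⟨hρinj, hρsurj⟩).symm_apply_apply k
        rw [mem_preimage, this]
        exact hk
    rw [this]
    exact hclosed C hC
  have hKc : CompactSpace K := ⟨by
    have := isCompact_range hσ
    rwa [σ.surjective.range_eq] at this⟩
  refine ⟨isCompact_iff_compactSpace.2 hKc, Γ, fun k => h (ρ k), ?_, fun k ε hε => hC0.fin _ ε hε⟩
  have hhomeo : IsHomeomorph σ := (isHomeomorph_iff_continuous_bijective).2 ⟨hσ, σ.bijective⟩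
  have hemb : IsEmbedding h := ((continuous_pi hC0.cont).isClosedEmbedding hinj).isEmbedding
  have : (fun k => h (ρ k)) = h ∘ (hhomeo.homeomorph σ).symm := by
    funext k
    congr 1
    apply σ.injective
    have h1 : σ (ρ k) = k := (Equiv.ofBijective ρ ⟨hρinj, hρsurj⟩).symm_apply_apply k
    rw [h1]
    exact ((hhomeo.homeomorph σ).apply_symm_apply k).symm
  rw [this]
  exact hemb.comp (hhomeo.homeomorph σ).symm.isEmbedding

end

end Pool.Agent.TH603.Cp
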